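import Pool.Agent.MP_74e98a_nt.H93.Defs
import Pool.Agent.MP_6f2ed2_nt.H1.Hrep
import Pool.Agent.MP_6f2ed2_nt.H35.Gamma

/-! Row F: the term with a stationary point is an average of damped triple sums. -/

namespace Pool.Agent.MP_74e98a_nt.H47

open Complex MeasureTheory Set Filter Pool.Agent.MP_6f2ed2_nt Pool.Agent.MP_6f2ed2_nt.H1
  Pool.Agent.MP_74e98a_nt.H75 Pool.Agent.MP_74e98a_nt.H93

/-- the kernel with its weight -/
noncomputable def kk (δ x u : ℝ) : ℂ :=
  (Real.exp (u / 2) : ℝ) * H75.ker (Real.exp u * Real.sin δ) (Real.exp u * Real.cos δ) x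

/-- the constant of the representation -/
noncomputable def cc (δ : ℝ) : ℂ :=
  ((Real.sqrt 2 : ℂ))⁻¹ * cexp (I * Real.pi / 8 - I * δ / 2)

lemma norm_cc (δ : ℝ) : ‖cc δ‖ ≤ 1 := by
  unfold cc
  rw [norm_mul, norm_inv, norm_exp, Complex.norm_real, Real.norm_of_nonneg (Real.sqrt_nonneg _)]
  have h : (I * Real.pi / 8 - I * δ / 2 : ℂ).re = 0 := by simp
  rw [h, Real.exp_zero, mul_one]
  exact inv_le_one_of_one_le₀ Real.one_lt_sqrt_two.le

lemma norm_kk (δ u : ℝ) {x : ℝ} (hx : 0 ≤ x) :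
    ‖kk δ x u‖ = x * Real.exp (u / 2 - Real.pi * (Real.sin δ * x ^ 2) * Real.exp u) := by
  unfold kk H75.ker
  rw [norm_mul, norm_mul, Complex.norm_real, Complex.norm_real, norm_exp,
    Real.norm_of_nonneg (Real.exp_pos _).le, Real.norm_of_nonneg hx, mul_left_comm,
    ← Real.exp_add]
  congr 2
  simp only [neg_re, mul_re, mul_im, add_re, add_im, ofReal_re, ofReal_im, I_re, I_im, sq]
  ring

lemma continuous_kk (δ x : ℝ) : Continuous (kk δ x) := by
  unfold kk H75.ker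
  fun_prop

lemma integrable_kk {δ x : ℝ} (hδ : 0 < Real.sin δ) (hx : 0 < x) : Integrable (kk δ x) := by
  have hν : 0 < x * √(Real.sin δ) := by positivity
  refine ((integrable_Fw hν).const_mul (x / √(x * √(Real.sin δ)))).mono'
    (continuous_kk δ x).aestronglyMeasurable (Eventually.of_forall fun u => le_of_eq ?_)
  rw [norm_kk δ u hx.le, Fw, mul_pow, Real.sq_sqrt hδ.le, mul_comm (x ^ 2)]
  have : √(x * √(Real.sin δ)) ≠ 0 := by positivity
  field_simp

lemma rep {δ x : ℝ} (hδ : 0 < δ) (hδ' : δ < Real.pi) (hx : 0 < x) (t : ℝ) :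
    Mf t * cexp (-(δ * t / 2)) * cexp (-I * (Real.log x : ℂ) * t) =
      cc δ * ∫ u, kk δ x u * cexp (I * t * u / 2) := by
  set a : ℂ := 1 / 2 + I * t / 2 with ha
  set w : ℂ := (Real.log Real.pi + 2 * Real.log x : ℝ) + (Real.pi / 2 - δ : ℝ) * I with hw
  have h := H35.gamma_exp (a := a) (w := w) (by rw [ha]; simp) (by
    have : w.im = Real.pi / 2 - δ := by rw [hw]; simp
    rw [this, abs_lt]; constructor <;> linarith)
  rw [← integral_comp_exp_univ] at h
  have ew : cexp w = (Real.pi * x ^ 2 : ℝ) * ((Real.sin δ : ℝ) + (Real.cos δ : ℝ) * I) := by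
    rw [hw, Complex.exp_add, ← ofReal_exp, exp_mul_I, ← ofReal_cos, ← ofReal_sin,
      Real.cos_pi_div_two_sub, Real.sin_pi_div_two_sub, Real.exp_add, Real.exp_log Real.pi_pos,
      show 2 * Real.log x = Real.log (x ^ 2) by rw [Real.log_pow]; norm_num,
      Real.exp_log (by positivity)]
  have e : ∀ u : ℝ, kk δ x u * cexp (I * t * u / 2) =
      (x : ℂ) * (Real.exp u •
        (((Real.exp u : ℝ) : ℂ) ^ (a - 1) * cexp (-(cexp w * (Real.exp u : ℝ))))) := by
    intro u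
    rw [cpow_def_of_ne_zero (by exact_mod_cast (Real.exp_pos u).ne'),
      ← Complex.ofReal_log (Real.exp_pos u).le, Real.log_exp, Complex.real_smul, kk, H75.ker, ew, ha]
    rw [ofReal_exp (u / 2), mul_left_comm, mul_assoc]
    congr 1
    rw [ofReal_exp u]
    simp only [← Complex.exp_add]
    congr 1
    push_cast
    ring
  simp_rw [e]
  rw [integral_const_mul, h, Mf, cc, b_cpow, ← ha]
  have e3 : (x : ℂ) = cexp (Real.log x) := by rw [← ofReal_exp, Real.exp_log hx]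
  have e4 : cexp (-(I * Real.pi / 8)) * cexp (Real.pi * t / 4) * cexp (Real.log Real.pi * -a) *
      cexp (-(δ * t / 2)) * cexp (-I * (Real.log x : ℂ) * t) =
      cexp (I * Real.pi / 8 - I * δ / 2) * cexp (Real.log x) * cexp (-(a * w)) := by
    simp only [← Complex.exp_add]
    congr 1
    rw [ha, hw]
    push_cast
    linear_combination ((Real.pi : ℂ) * t / 4 - δ * t / 2) * I_sq
  rw [← e3] at e4
  linear_combination ((√2 : ℝ) : ℂ)⁻¹ * Gamma a * e4

/-- the coefficient of a triple -/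
noncomputable def co (φ : ℝ → ℝ) (L1 L2 L3 : ℝ) (a b c : ℕ) : ℝ :=
  φ (L1 - Real.log a) * φ (L2 - Real.log b) * φ (L3 - Real.log c) / Real.sqrt ((a : ℝ) * b * c)

/-- the weighted triple sum -/
noncomputable def FF (φ : ℝ → ℝ) (δ L1 L2 L3 : ℝ) (N : ℕ) (u : ℝ) : ℂ :=
  (Real.exp (u / 2) : ℝ) * triple φ (Real.exp u * Real.sin δ) (Real.exp u * Real.cos δ) L1 L2 L3 N

lemma FF_eq (φ : ℝ → ℝ) (δ L1 L2 L3 : ℝ) (N : ℕ) (u : ℝ) :
    FF φ δ L1 L2 L3 N u = ∑ a ∈ Finset.Icc 1 N, ∑ b ∈ Finset.Icc 1 N, ∑ c ∈ Finset.Icc 1 N,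
      (co φ L1 L2 L3 a b c : ℂ) * kk δ ((a : ℝ) * b / c) u := by
  unfold FF triple
  simp only [Finset.mul_sum]
  refine Finset.sum_congr rfl fun a _ => Finset.sum_congr rfl fun b _ =>
    Finset.sum_congr rfl fun c _ => ?_
  rw [kk, co, mul_left_comm]

lemma pos_of_mem {N a : ℕ} (h : a ∈ Finset.Icc 1 N) : (0 : ℝ) < a := by
  have := (Finset.mem_Icc.mp h).1
  exact_mod_cast this

lemma PPP (φ : ℝ → ℝ) (L1 L2 L3 : ℝ) (N : ℕ) (t : ℝ) :
    P φ L1 N t * P φ L2 N t * (starRingEnd ℂ) (P φ L3 N t) =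
      ∑ a ∈ Finset.Icc 1 N, ∑ b ∈ Finset.Icc 1 N, ∑ c ∈ Finset.Icc 1 N,
        (co φ L1 L2 L3 a b c : ℂ) * cexp (-I * (Real.log ((a : ℝ) * b / c) : ℂ) * t) := by
  unfold P
  rw [map_sum, Finset.sum_mul_sum, Finset.sum_mul]
  refine Finset.sum_congr rfl fun a ha => ?_
  rw [Finset.sum_mul]
  refine Finset.sum_congr rfl fun b hb => ?_
  rw [Finset.mul_sum]
  refine Finset.sum_congr rfl fun c hc => ?_
  have ha' := pos_of_mem ha
  have hb' := pos_of_mem hb
  have hc' := pos_of_mem hc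
  rw [Real.log_div (by positivity) hc'.ne', Real.log_mul ha'.ne' hb'.ne', co,
    Real.sqrt_mul (by positivity), Real.sqrt_mul ha'.le]
  unfold dir
  rw [map_mul, map_mul, conj_ofReal, conj_ofReal, ← exp_conj]
  simp only [map_mul, map_neg, conj_I, conj_ofReal]
  have e : cexp (-I * ((Real.log a + Real.log b - Real.log c : ℝ) : ℂ) * t) =
      cexp (-I * (Real.log a : ℂ) * t) * cexp (-I * (Real.log b : ℂ) * t) *
        cexp (- -I * (Real.log c : ℂ) * t) := by
    simp only [← Complex.exp_add]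
    congr 1
    rw [ofReal_sub, ofReal_add]
    ring
  rw [e]
  simp only [ofReal_div, ofReal_mul, ofReal_one]
  ring

lemma integrable_FF (φ : ℝ → ℝ) {δ : ℝ} (hδ : 0 < Real.sin δ) (L1 L2 L3 : ℝ) (N : ℕ) :
    Integrable (FF φ δ L1 L2 L3 N) := by
  have e : FF φ δ L1 L2 L3 N = fun u => _ := funext (FF_eq φ δ L1 L2 L3 N)
  rw [e]
  refine integrable_finsetSum _ fun a ha => integrable_finsetSum _ fun b hb =>
    integrable_finsetSum _ fun c hc => (integrable_kk hδ ?_).const_mul _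
  have ha' := pos_of_mem ha
  have hb' := pos_of_mem hb
  have hc' := pos_of_mem hc
  positivity

lemma continuous_FF (φ : ℝ → ℝ) (δ L1 L2 L3 : ℝ) (N : ℕ) : Continuous (FF φ δ L1 L2 L3 N) := by
  have e : FF φ δ L1 L2 L3 N = fun u => _ := funext (FF_eq φ δ L1 L2 L3 N)
  rw [e]
  exact continuous_finsetSum _ fun a _ => continuous_finsetSum _ fun b _ =>
    continuous_finsetSum _ fun c _ => continuous_const.mul (continuous_kk _ _)

lemma norm_osc (t u : ℝ) : ‖cexp (I * t * u / 2)‖ = 1 := by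
  rw [norm_exp]; simp

lemma integrable_osc {f : ℝ → ℂ} (hf : Integrable f) (t : ℝ) :
    Integrable fun u : ℝ => f u * cexp (I * t * u / 2) :=
  hf.norm.mono' (hf.1.mul (by fun_prop : Continuous fun u : ℝ =>
    cexp (I * t * u / 2)).aestronglyMeasurable)
    (Eventually.of_forall fun u => by rw [norm_mul, norm_osc, mul_one])

lemma rep3 (φ : ℝ → ℝ) {δ : ℝ} (hδ : 0 < δ) (hδ' : δ < Real.pi) (L1 L2 L3 : ℝ) (N : ℕ) (t : ℝ) :
    Mf t * cexp (-(δ * t / 2)) * (P φ L1 N t * P φ L2 N t * (starRingEnd ℂ) (P φ L3 N t)) =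
      cc δ * ∫ u, FF φ δ L1 L2 L3 N u * cexp (I * t * u / 2) := by
  have hs := Real.sin_pos_of_pos_of_lt_pi hδ hδ'
  have hx : ∀ a ∈ Finset.Icc 1 N, ∀ b ∈ Finset.Icc 1 N, ∀ c ∈ Finset.Icc 1 N,
      (0 : ℝ) < (a : ℝ) * b / c := by
    intro a ha b hb c hc
    have ha' := pos_of_mem ha
    have hb' := pos_of_mem hb
    have hc' := pos_of_mem hc
    positivity
  have hi : ∀ a ∈ Finset.Icc 1 N, ∀ b ∈ Finset.Icc 1 N, ∀ c ∈ Finset.Icc 1 N,
      Integrable fun u : ℝ => (co φ L1 L2 L3 a b c : ℂ) * kk δ ((a : ℝ) * b / c) u *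
        cexp (I * t * u / 2) := fun a ha b hb c hc =>
    integrable_osc ((integrable_kk hs (hx a ha b hb c hc)).const_mul _) t
  simp only [FF_eq, PPP, Finset.sum_mul]
  rw [integral_finsetSum _ fun a ha => integrable_finsetSum _ fun b hb =>
    integrable_finsetSum _ fun c hc => hi a ha b hb c hc, Finset.mul_sum, Finset.mul_sum]
  refine Finset.sum_congr rfl fun a ha => ?_
  rw [integral_finsetSum _ fun b hb => integrable_finsetSum _ fun c hc => hi a ha b hb c hc,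
    Finset.mul_sum, Finset.mul_sum]
  refine Finset.sum_congr rfl fun b hb => ?_
  rw [integral_finsetSum _ fun c hc => hi a ha b hb c hc, Finset.mul_sum, Finset.mul_sum]
  refine Finset.sum_congr rfl fun c hc => ?_
  simp only [mul_assoc (co φ L1 L2 L3 a b c : ℂ)]
  rw [integral_const_mul, mul_left_comm (cc δ), ← rep hδ hδ' (hx a ha b hb c hc) t]
  ring

/-- the Fourier transform of the window -/
noncomputable def RR (w H u : ℝ) : ℂ :=
  ∫ t in (w - H)..(w + H), (tri w H t : ℂ) * cexp (I * t * u / 2)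

lemma RR_eq (w u : ℝ) {H : ℝ} (hH : 0 < H) :
    RR w H u = cexp (I * w * u / 2) / H * Kt H u := by
  have e : ∀ t : ℝ, tri w H t = tent H (t - w) / H := by
    intro t
    rw [tri, tent, ← max_div_div_right hH.le, zero_div, sub_div, div_self hH.ne', max_comm]
  rw [RR, intervalIntegral.integral_eq_integral_of_support_subset, Kt, ← integral_const_mul,
    ← integral_add_right_eq_self _ w]
  · congr 1; ext t
    rw [e, add_sub_cancel_right]
    push_cast
    rw [show I * (t + w) * u / 2 = I * w * u / 2 + I * t * u / 2 by ring, Complex.exp_add]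
    ring
  · intro t ht
    by_contra h
    apply ht
    simp only []
    rw [e, tent_eq_zero, zero_div, ofReal_zero, zero_mul]
    by_contra h2
    have := abs_lt.mp (not_le.mp h2)
    exact h ⟨by linarith [this.1], by linarith [this.2]⟩

lemma norm_RR_le (w u : ℝ) {H : ℝ} (hH : 0 < H) : ‖RR w H u‖ ≤ H := by
  rw [RR_eq w u hH, norm_mul, norm_div, norm_osc, Complex.norm_real, Real.norm_of_nonneg hH.le]
  have h : ‖Kt H u‖ ≤ H ^ 2 := by
    rw [← integral_tent H 0 hH.le, Kt]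
    refine (norm_integral_le_integral_norm _).trans (le_of_eq ?_)
    congr 1; ext τ
    rw [norm_mul, norm_osc, Complex.norm_real, Real.norm_of_nonneg (tent_nonneg _ _), mul_one,
      sub_zero]
  calc 1 / H * ‖Kt H u‖ ≤ 1 / H * H ^ 2 := by gcongr
    _ = H := by field_simp

lemma norm_RR_mul (w u : ℝ) {H : ℝ} (hH : 0 < H) : ‖RR w H u‖ * (H * u ^ 2) ≤ 16 := by
  rcases eq_or_ne u 0 with rfl | hu
  · simp
  rw [RR_eq w u hH, norm_mul, norm_div, norm_osc, Complex.norm_real, Real.norm_of_nonneg hH.le,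
    Kt_eq H hH.le u (by exact_mod_cast hu), norm_div, norm_mul, norm_pow, Complex.norm_real,
    Real.norm_eq_abs, sq_abs]
  have h1 : ‖(2 : ℂ) - cexp (I * H * u / 2) - cexp (-(I * H * u / 2))‖ ≤ 4 := by
    have h2 : ‖cexp (-(I * H * u / 2))‖ = 1 := by rw [Complex.exp_neg, norm_inv, norm_osc, inv_one]
    calc _ ≤ ‖(2 : ℂ)‖ + ‖cexp (I * H * u / 2)‖ + ‖cexp (-(I * H * u / 2))‖ :=
          (norm_sub_le _ _).trans (by gcongr; exact norm_sub_le _ _)
      _ = 4 := by rw [h2, norm_osc]; norm_num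
  have h4 : ‖(4 : ℂ)‖ = 4 := by simp
  rw [h4]
  have hu2 : 0 < u ^ 2 := by positivity
  calc _ = 4 * ‖(2 : ℂ) - cexp (I * H * u / 2) - cexp (-(I * H * u / 2))‖ := by field_simp
    _ ≤ 16 := by linarith

lemma swap {f : ℝ → ℂ} (hf : Integrable f) (hc : Continuous f) (w : ℝ) {H : ℝ} (hH : 0 < H) :
    ∫ t in (w - H)..(w + H), (tri w H t : ℂ) * ∫ u, f u * cexp (I * t * u / 2) =
      ∫ u, RR w H u * f u := by
  have hle : w - H ≤ w + H := by linarith
  have hI : Integrable (Function.uncurry fun (t u : ℝ) =>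
      (tri w H t : ℂ) * (f u * cexp (I * t * u / 2)))
      ((volume.restrict (Ioc (w - H) (w + H))).prod volume) := by
    have i1 : Integrable (fun _ : ℝ => (1 : ℝ)) (volume.restrict (Ioc (w - H) (w + H))) :=
      integrable_const _
    refine (i1.mul_prod hf.norm).mono' ?_ (Eventually.of_forall fun q => ?_)
    · apply Continuous.aestronglyMeasurable
      have := continuous_tri w H
      unfold Function.uncurry
      fun_prop
    · simp only [Function.uncurry]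
      rw [norm_mul, norm_mul, norm_osc, mul_one, Complex.norm_real,
        Real.norm_of_nonneg (tri_nonneg _ _ _)]
      gcongr
      exact tri_le_one _ _ hH.le
  have h := integral_integral_swap hI
  simp only [← integral_const_mul]
  rw [intervalIntegral.integral_of_le hle, h]
  congr 1; ext u
  rw [RR, intervalIntegral.integral_of_le hle, ← integral_mul_const]
  congr 1; ext t
  ring

lemma sum_inv_sqrt (N : ℕ) : ∑ a ∈ Finset.Icc 1 N, 1 / √(a : ℝ) ≤ 2 * √(N : ℝ) := by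
  induction N with
  | zero => simp
  | succ n ih =>
    rw [Finset.sum_Icc_succ_top (by omega)]
    have h1 : 0 < √((n + 1 : ℕ) : ℝ) := by positivity
    have h2 : √((n + 1 : ℕ) : ℝ) ^ 2 = n + 1 := by rw [Real.sq_sqrt (by positivity)]; push_cast; rfl
    have h3 : √(n : ℝ) ^ 2 = n := Real.sq_sqrt (by positivity)
    have h4 : 1 / √((n + 1 : ℕ) : ℝ) ≤ 2 * √((n + 1 : ℕ) : ℝ) - 2 * √(n : ℝ) := by
      rw [div_le_iff₀ h1]
      nlinarith [sq_nonneg (√((n + 1 : ℕ) : ℝ) - √(n : ℝ))]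
    linarith

lemma sin_bounds {K : ℝ} (hK : 2 ≤ K) :
    1 / (2 * K ^ 2) ≤ Real.sin (1 / K ^ 2) ∧ Real.sin (1 / K ^ 2) ≤ 1 / K ^ 2 := by
  have h0 : 0 < 1 / K ^ 2 := by positivity
  have h1 : 1 / K ^ 2 ≤ 1 / 4 := one_div_le_one_div_of_le (by norm_num) (by nlinarith)
  refine ⟨?_, Real.sin_le h0.le⟩
  have h := Real.sin_gt_sub_cube h0
  have e : 1 / (2 * K ^ 2) = 1 / K ^ 2 / 2 := by field_simp
  rw [e]
  have : (1 / K ^ 2) ^ 3 ≤ 1 / K ^ 2 := pow_le_of_le_one h0.le (by linarith) (by norm_num)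
  linarith

lemma norm_kk_le {K x : ℝ} (hK : 2 ≤ K) (hx : 0 ≤ x) (u : ℝ) : ‖kk (1 / K ^ 2) x u‖ ≤ K := by
  rw [norm_kk _ _ hx, Real.exp_sub, ← mul_div_assoc, div_le_iff₀ (Real.exp_pos _)]
  set y := x * Real.exp (u / 2) with hy
  have hy0 : 0 ≤ y := by positivity
  have e : Real.pi * (Real.sin (1 / K ^ 2) * x ^ 2) * Real.exp u =
      Real.pi * Real.sin (1 / K ^ 2) * y ^ 2 := by
    rw [hy, mul_pow, sq (Real.exp _), ← Real.exp_add, add_halves]; ring
  rw [e]
  have h1 : 1 / K ^ 2 ≤ Real.pi * Real.sin (1 / K ^ 2) := by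
    have h := (sin_bounds hK).1
    have e2 : 1 / K ^ 2 = 2 * (1 / (2 * K ^ 2)) := by field_simp
    have h0 : 0 < 1 / (2 * K ^ 2) := by positivity
    nth_rewrite 1 [e2]
    exact mul_le_mul Real.two_le_pi h h0.le Real.pi_pos.le
  have h2 : 1 / K ^ 2 * y ^ 2 + 1 ≤ Real.exp (Real.pi * Real.sin (1 / K ^ 2) * y ^ 2) :=
    le_trans (by gcongr) (Real.add_one_le_exp _)
  have hK0 : 0 < K := by linarith
  calc y ≤ K * (1 / K ^ 2 * y ^ 2 + 1) := by
        rw [show K * (1 / K ^ 2 * y ^ 2 + 1) = (y ^ 2 + K ^ 2) / K by field_simp, le_div_iff₀ hK0]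
        nlinarith [sq_nonneg (y - K), mul_nonneg hy0 hK0.le]
    _ ≤ _ := by gcongr

lemma norm_FF_le {φ : ℝ → ℝ} (hφ : Step φ) {K : ℝ} (hK : 2 ≤ K) (L1 L2 L3 : ℝ) (N : ℕ) (u : ℝ) :
    ‖FF φ (1 / K ^ 2) L1 L2 L3 N u‖ ≤ (2 * √(N : ℝ)) ^ 3 * K := by
  have hK0 : 0 < K := by linarith
  rw [FF_eq]
  calc _ ≤ ∑ a ∈ Finset.Icc 1 N, ∑ b ∈ Finset.Icc 1 N, ∑ c ∈ Finset.Icc 1 N,
        1 / √(a : ℝ) * (1 / √(b : ℝ)) * (1 / √(c : ℝ)) * K := by
        refine norm_sum_le_of_le _ fun a ha => norm_sum_le_of_le _ fun b hb =>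
          norm_sum_le_of_le _ fun c hc => ?_
        have ha' := pos_of_mem ha
        have hb' := pos_of_mem hb
        have hc' := pos_of_mem hc
        rw [norm_mul]
        refine mul_le_mul ?_ (norm_kk_le hK (by positivity) u) (norm_nonneg _) (by positivity)
        have h1 := hφ.nonneg (L1 - Real.log a)
        have h2 := hφ.nonneg (L2 - Real.log b)
        have h3 := hφ.nonneg (L3 - Real.log c)
        rw [Complex.norm_real, co, Real.norm_of_nonneg (by positivity),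
          Real.sqrt_mul (by positivity), Real.sqrt_mul ha'.le, div_mul_div_comm, div_mul_div_comm]
        gcongr <;> exact hφ.le_one _
    _ = (∑ a ∈ Finset.Icc 1 N, 1 / √(a : ℝ)) * (∑ a ∈ Finset.Icc 1 N, 1 / √(a : ℝ)) *
        (∑ a ∈ Finset.Icc 1 N, 1 / √(a : ℝ)) * K := by
        rw [Finset.sum_mul_sum, Finset.sum_mul, Finset.sum_mul]
        refine Finset.sum_congr rfl fun a _ => ?_
        rw [Finset.sum_mul, Finset.sum_mul]
        refine Finset.sum_congr rfl fun b _ => ?_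
        rw [Finset.mul_sum, Finset.sum_mul]
    _ ≤ 2 * √(N : ℝ) * (2 * √(N : ℝ)) * (2 * √(N : ℝ)) * K := by
        have := sum_inv_sqrt N
        gcongr
    _ = _ := by ring

lemma near {K u : ℝ} (hK : 2 ≤ K) (hu : |u| ≤ 1 / (8 * K)) :
    Real.exp (u / 2) ≤ 2 ∧ 1 / (4 * K ^ 2) ≤ Real.exp u * Real.sin (1 / K ^ 2) ∧
      Real.exp u * Real.sin (1 / K ^ 2) ≤ 4 / K ^ 2 ∧
      |Real.exp u * Real.cos (1 / K ^ 2) - 1| ≤ 1 / (2 * K) := by
  have hK0 : 0 < K := by linarith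
  have hk : 1 / K ≤ 1 / 2 := one_div_le_one_div_of_le (by norm_num) hK
  have hk0 : 0 < 1 / K := by positivity
  have e8 : 1 / (8 * K) = 1 / K / 8 := by field_simp
  have e2 : 1 / (2 * K) = 1 / K / 2 := by field_simp
  have e1 : 1 / K ^ 2 = (1 / K) ^ 2 := by field_simp
  rw [e8] at hu
  have h1 := abs_le.mp (Real.abs_exp_sub_one_le (x := u) (by linarith))
  have hu2 : |u / 2| ≤ |u| := by rw [abs_div, abs_two]; linarith [abs_nonneg u]
  have h2 := abs_le.mp (Real.abs_exp_sub_one_le (x := u / 2) (by linarith))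
  obtain ⟨s1, s2⟩ := sin_bounds hK
  have s0 : 0 < 1 / (2 * K ^ 2) := by positivity
  refine ⟨by linarith [h2.2], ?_, ?_, ?_⟩
  · calc 1 / (4 * K ^ 2) = 1 / 2 * (1 / (2 * K ^ 2)) := by field_simp; norm_num
      _ ≤ _ := mul_le_mul (by linarith [h1.1]) s1 s0.le (Real.exp_pos _).le
  · calc _ ≤ 4 * (1 / K ^ 2) := mul_le_mul (by linarith [h1.2]) s2 (by linarith) (by norm_num)
      _ = _ := by ring
  · have c1 := Real.one_sub_sq_div_two_le_cos (x := 1 / K ^ 2)
    have c2 := Real.cos_le_one (1 / K ^ 2)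
    have c3 : (1 / K ^ 2) ^ 2 ≤ 1 / K / 8 := by
      rw [e1]
      have : (1 / K) ^ 3 ≤ (1 / 2) ^ 3 := by gcongr
      nlinarith
    have c4 : 0 ≤ Real.cos (1 / K ^ 2) := by linarith
    rw [e2, abs_le]
    constructor <;> nlinarith [h1.1, h1.2]

lemma integrable_lor {b : ℝ} (hb : 0 < b) : Integrable fun u : ℝ => (1 + (b * u) ^ 2)⁻¹ :=
  integrable_inv_one_add_sq.comp_mul_left' hb.ne'

lemma integral_lor {b : ℝ} (hb : 0 < b) : ∫ u : ℝ, (1 + (b * u) ^ 2)⁻¹ = Real.pi / b := by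
  rw [Measure.integral_comp_mul_left (fun u : ℝ => (1 + u ^ 2)⁻¹) b, integral_univ_inv_one_add_sq,
    abs_of_pos (inv_pos.mpr hb), smul_eq_mul]
  ring

lemma average {f : ℝ → ℂ} (w : ℝ) {H η A B : ℝ} (hH : 0 < H) (hη : 0 < η) (hA : 0 ≤ A)
    (hB : 0 ≤ B) (h1 : ∀ u, |u| ≤ η → ‖f u‖ ≤ A) (h2 : ∀ u, ‖f u‖ ≤ B) :
    ‖∫ u, RR w H u * f u‖ ≤ 8 * Real.pi * A + 32 * Real.pi * B / (H * η) := by
  have i1 := (integrable_lor (b := H / 4) (by positivity)).const_mul (2 * H * A)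
  have i2 := (integrable_lor (b := η⁻¹) (by positivity)).const_mul (32 * B / (H * η ^ 2))
  refine (norm_integral_le_of_norm_le (i1.add i2) (Eventually.of_forall fun u => ?_)).trans
    (le_of_eq ?_)
  · have r1 := norm_RR_le w u hH
    have r2 := norm_RR_mul w u hH
    have r0 := norm_nonneg (RR w H u)
    rw [norm_mul, Pi.add_apply]
    rcases le_total |u| η with h | h
    · have r3 : ‖RR w H u‖ ≤ 2 * H * (1 + (H / 4 * u) ^ 2)⁻¹ := by
        rw [← div_eq_mul_inv, le_div_iff₀ (by positivity)]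
        have : ‖RR w H u‖ * (H * u ^ 2) * H ≤ 16 * H := by gcongr
        nlinarith
      calc _ ≤ 2 * H * (1 + (H / 4 * u) ^ 2)⁻¹ * A := mul_le_mul r3 (h1 u h) (norm_nonneg _)
            (by positivity)
        _ = 2 * H * A * (1 + (H / 4 * u) ^ 2)⁻¹ := by ring
        _ ≤ _ := le_add_of_nonneg_right (by positivity)
    · have hu : η ^ 2 ≤ u ^ 2 := by rw [← sq_abs u]; gcongr
      have r3 : ‖RR w H u‖ ≤ 32 / (H * η ^ 2) * (1 + (η⁻¹ * u) ^ 2)⁻¹ := by
        rw [show 32 / (H * η ^ 2) * (1 + (η⁻¹ * u) ^ 2)⁻¹ = 32 / (H * η ^ 2 + H * u ^ 2) by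
          field_simp, le_div_iff₀ (by positivity)]
        have : ‖RR w H u‖ * (H * η ^ 2) ≤ ‖RR w H u‖ * (H * u ^ 2) := by gcongr
        linarith
      calc _ ≤ 32 / (H * η ^ 2) * (1 + (η⁻¹ * u) ^ 2)⁻¹ * B := mul_le_mul r3 (h2 u) (norm_nonneg _)
            (by positivity)
        _ = 32 * B / (H * η ^ 2) * (1 + (η⁻¹ * u) ^ 2)⁻¹ := by ring
        _ ≤ _ := le_add_of_nonneg_left (by positivity)
  · simp only [Pi.add_apply]
    rw [integral_add i1 i2, integral_const_mul, integral_const_mul, integral_lor (by positivity),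
      integral_lor (by positivity)]
    field_simp
    ring

theorem fub (h : TripleStmt) : FubStmt := by
  intro φ hφ
  obtain ⟨C, κ, hκ, hC⟩ := h φ hφ
  set D : ℝ := (2 * √(2 * Real.exp 11)) ^ 3 with hD
  have hD0 : 0 ≤ D := by positivity
  refine ⟨Real.exp 1 * (16 * Real.pi * |C| + 256 * Real.pi * D), κ, hκ,
    fun K w H L1 L2 L3 N hK hH hw0 hw h1 h2 h3 hN1 hN2 => ?_⟩
  have hK0 : 0 < K := by linarith
  have hδ : 0 < 1 / K ^ 2 := by positivity
  have hδ' : 1 / K ^ 2 < Real.pi := by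
    have : 1 / K ^ 2 ≤ 1 / 4 := one_div_le_one_div_of_le (by norm_num) (by nlinarith)
    linarith [Real.pi_gt_three]
  have hs := Real.sin_pos_of_pos_of_lt_pi hδ hδ'
  have e : ∀ t : ℝ, (tri w H t : ℂ) *
      (Mf t * (Real.exp (-(t - w) / (2 * K ^ 2)) : ℝ) *
        (P φ L1 N t * P φ L2 N t * (starRingEnd ℂ) (P φ L3 N t))) =
      ((Real.exp (w / (2 * K ^ 2)) : ℝ) * cc (1 / K ^ 2)) * ((tri w H t : ℂ) *
        ∫ u, FF φ (1 / K ^ 2) L1 L2 L3 N u * cexp (I * t * u / 2)) := by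
    intro t
    have hr := rep3 φ hδ hδ' L1 L2 L3 N t
    have e1 : ((Real.exp (-(t - w) / (2 * K ^ 2)) : ℝ) : ℂ) =
        (Real.exp (w / (2 * K ^ 2)) : ℝ) * cexp (-((1 / K ^ 2 : ℝ) * t / 2)) := by
      rw [ofReal_exp, ofReal_exp, ← Complex.exp_add]
      congr 1
      push_cast
      ring
    rw [e1]
    linear_combination (tri w H t : ℂ) * (Real.exp (w / (2 * K ^ 2)) : ℝ) * hr
  simp only [e]
  rw [intervalIntegral.integral_const_mul, swap (integrable_FF φ hs L1 L2 L3 N)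
    (continuous_FF φ _ L1 L2 L3 N) w hH, norm_mul, norm_mul, Complex.norm_real,
    Real.norm_of_nonneg (Real.exp_pos _).le]
  have hp : 0 < K ^ (2 - κ) := Real.rpow_pos_of_pos hK0 _
  have hq : 0 < K ^ (7 / 2 : ℝ) / H := div_pos (Real.rpow_pos_of_pos hK0 _) hH
  have hav := average (f := FF φ (1 / K ^ 2) L1 L2 L3 N) w (η := 1 / (8 * K))
    (A := 2 * (|C| * K ^ (2 - κ))) (B := D * (√K ^ 3 * K)) hH (by positivity) (by positivity)
    (by positivity) (fun u hu => by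
      obtain ⟨n1, n2, n3, n4⟩ := near hK hu
      rw [FF, norm_mul, Complex.norm_real, Real.norm_of_nonneg (Real.exp_pos _).le]
      refine mul_le_mul n1 ((hC K _ _ L1 L2 L3 N hK n2 n3 n4 h1 h2 h3 hN1).trans ?_)
        (norm_nonneg _) (by norm_num)
      gcongr
      exact le_abs_self C) (fun u => by
      refine (norm_FF_le hφ hK L1 L2 L3 N u).trans ?_
      rw [hD, ← mul_assoc, ← mul_pow, mul_assoc 2, ← Real.sqrt_mul (by positivity)]
      gcongr)
  have e7 : K ^ (7 / 2 : ℝ) = √K ^ 3 * K * K := by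
    rw [Real.sqrt_eq_rpow, ← Real.rpow_natCast, ← Real.rpow_mul hK0.le, ← Real.rpow_add_one hK0.ne',
      ← Real.rpow_add_one hK0.ne']
    norm_num
  have e8 : 32 * Real.pi * (D * (√K ^ 3 * K)) / (H * (1 / (8 * K))) =
      256 * Real.pi * D * (K ^ (7 / 2 : ℝ) / H) := by
    rw [e7]; field_simp; ring
  rw [e8] at hav
  have hw1 : Real.exp (w / (2 * K ^ 2)) ≤ Real.exp 1 :=
    Real.exp_le_exp.mpr ((div_le_one (by positivity)).mpr hw)
  have hc := norm_cc (1 / K ^ 2)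
  have hpi := Real.pi_pos
  calc _ ≤ Real.exp 1 * 1 * (8 * Real.pi * (2 * (|C| * K ^ (2 - κ))) +
        256 * Real.pi * D * (K ^ (7 / 2 : ℝ) / H)) := by gcongr
    _ ≤ _ := by
      rw [mul_one, mul_assoc (Real.exp 1)]
      gcongr
      have a1 : 0 ≤ Real.pi * |C| * (K ^ (7 / 2 : ℝ) / H) := by positivity
      have a2 : 0 ≤ Real.pi * D * K ^ (2 - κ) := by positivity
      nlinarith

end Pool.Agent.MP_74e98a_nt.H47
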